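import Pool.Agent.H17.SQA.Stmts

/-!
# SQA, row ASA: from the combinatorial statement to forms
-/

set_option autoImplicit false

namespace Pool.SQA

open Finset MvPolynomial Pool.FOS Pool.CST

namespace H14ASA

/-! ### Monomials -/

section Mono

variable {m n : ℕ} {W : Type} (e : Fin m × W ↪ Fin n)

/-- The exponent of the multilinear monomial of `B`, `z`. -/
noncomputable def mo (B : Finset (Fin m)) (z : B → W) : Fin n →₀ ℕ :=
  ∑ i : B, Finsupp.single (e (i.1, z i)) 1

theorem mo_degree (B : Finset (Fin m)) (z : B → W) : (mo e B z).degree = B.card := by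
  rw [mo, map_sum]
  simp [Finsupp.degree_single]

theorem mo_apply [DecidableEq W] (B : Finset (Fin m)) (z : B → W) (i : Fin m) (k : W) :
    mo e B z (e (i, k)) = if h : i ∈ B then (if z ⟨i, h⟩ = k then 1 else 0) else 0 := by
  classical
  rw [mo, Finsupp.finsetSum_apply]
  have h1 : ∀ j : B, (Finsupp.single (e (j.1, z j)) 1 : Fin n →₀ ℕ) (e (i, k)) =
      if j.1 = i ∧ z j = k then 1 else 0 := by
    intro j
    rw [Finsupp.single_apply]
    refine if_congr ?_ rfl rfl
    rw [e.injective.eq_iff, Prod.mk.injEq]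
  rw [Finset.sum_congr rfl (fun j _ => h1 j)]
  by_cases h : i ∈ B
  · rw [dif_pos h, Finset.sum_eq_single (⟨i, h⟩ : B)]
    · simp
    · intro j _ hj
      rw [if_neg]
      rintro ⟨h2, -⟩
      exact hj (Subtype.ext h2)
    · intro h2
      exact absurd (Finset.mem_univ _) h2
  · rw [dif_neg h]
    refine Finset.sum_eq_zero fun j _ => ?_
    rw [if_neg]
    rintro ⟨h2, -⟩
    exact h (h2 ▸ j.2)

theorem mo_apply_out (B : Finset (Fin m)) (z : B → W) (v : Fin n) (hv : v ∉ Set.range e) :
    mo e B z v = 0 := by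
  classical
  rw [mo, Finsupp.finsetSum_apply]
  refine Finset.sum_eq_zero fun j _ => ?_
  rw [Finsupp.single_apply, if_neg]
  intro h
  exact hv ⟨_, h⟩

theorem mo_inj {B B' : Finset (Fin m)} {z : B → W} {z' : B' → W} (h : mo e B z = mo e B' z') :
    (⟨B, z⟩ : Σ B : Finset (Fin m), (B → W)) = ⟨B', z'⟩ := by
  classical
  have hB : B = B' := by
    ext i
    constructor
    · intro hi
      by_contra hi'
      have h1 := mo_apply e B z i (z ⟨i, hi⟩)
      rw [h, mo_apply, dif_neg hi', dif_pos hi, if_pos rfl] at h1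
      exact absurd h1 (by norm_num)
    · intro hi
      by_contra hi'
      have h1 := mo_apply e B' z' i (z' ⟨i, hi⟩)
      rw [← h, mo_apply, dif_neg hi', dif_pos hi, if_pos rfl] at h1
      exact absurd h1 (by norm_num)
  subst hB
  congr 1
  funext i
  have h1 := mo_apply e B z i.1 (z i)
  rw [h, mo_apply, dif_pos i.2, dif_pos i.2, if_pos rfl] at h1
  by_contra hne
  rw [if_neg (fun h2 => hne h2.symm)] at h1
  exact absurd h1 (by norm_num)

/-- Multilinear exponents. -/
def Good [Fintype W] (μ : Fin n →₀ ℕ) : Prop :=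
  (∀ v, v ∉ Set.range e → μ v = 0) ∧ ∀ i, ∑ k : W, μ (e (i, k)) ≤ 1

theorem mo_good [Fintype W] (B : Finset (Fin m)) (z : B → W) : Good e (mo e B z) := by
  classical
  refine ⟨mo_apply_out e B z, fun i => ?_⟩
  rw [Finset.sum_congr rfl (fun k _ => mo_apply e B z i k)]
  by_cases h : i ∈ B
  · simp [h]
  · simp [h]

theorem good_mo [Fintype W] {μ : Fin n →₀ ℕ} (h : Good e μ) :
    ∃ (B : Finset (Fin m)) (z : B → W), μ = mo e B z := by
  classical
  let B : Finset (Fin m) := Finset.univ.filter (fun i => ∃ k, μ (e (i, k)) ≠ 0)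
  have hB : ∀ i : B, ∃ k, μ (e (i.1, k)) ≠ 0 := fun i => (Finset.mem_filter.1 i.2).2
  choose z hz using hB
  refine ⟨B, z, ?_⟩
  ext v
  by_cases hv : v ∈ Set.range e
  · obtain ⟨⟨i, k⟩, rfl⟩ := hv
    rw [mo_apply]
    by_cases hi : i ∈ B
    · rw [dif_pos hi]
      by_cases hk : z ⟨i, hi⟩ = k
      · rw [if_pos hk]
        have h1 := hz ⟨i, hi⟩
        rw [hk] at h1
        have h2 : μ (e (i, k)) ≤ ∑ k : W, μ (e (i, k)) :=
          Finset.single_le_sum (f := fun k => μ (e (i, k))) (fun _ _ => Nat.zero_le _)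
            (Finset.mem_univ k)
        have h3 := h.2 i
        have h4 : μ (e (i, k)) ≠ 0 := h1
        omega
      · rw [if_neg hk]
        by_contra h0
        have h1 : μ (e (i, z ⟨i, hi⟩)) ≠ 0 := hz ⟨i, hi⟩
        have h2 : μ (e (i, z ⟨i, hi⟩)) + μ (e (i, k)) ≤ ∑ k : W, μ (e (i, k)) := by
          rw [← Finset.sum_pair (f := fun k => μ (e (i, k))) hk]
          exact Finset.sum_le_sum_of_subset (Finset.subset_univ _)
        have h3 := h.2 i
        omega
    · rw [dif_neg hi]
      by_contra h0
      exact hi (Finset.mem_filter.2 ⟨Finset.mem_univ _, k, h0⟩)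
  · rw [h.1 v hv, mo_apply_out e B z v hv]

/-- Extension of a divisor. -/
theorem ext_div {ν μ : Fin n →₀ ℕ} {d : ℕ} (h : ν ≤ μ) (h1 : ν.degree ≤ d) (h2 : d ≤ μ.degree) :
    ∃ ν', ν ≤ ν' ∧ ν' ≤ μ ∧ ν'.degree = d := by
  obtain ⟨s, hs⟩ : ∃ s, d = ν.degree + s := ⟨d - ν.degree, by omega⟩
  induction s generalizing ν with
  | zero => exact ⟨ν, le_rfl, h, by omega⟩
  | succ s ih =>
    have hex : ∃ v, ν v < μ v := by
      by_contra hno
      push Not at hno
      have : μ = ν := le_antisymm (fun v => hno v) h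
      rw [this] at h2
      omega
    obtain ⟨v, hv⟩ := hex
    have h3 : ν + Finsupp.single v 1 ≤ μ := by
      intro w
      rw [Finsupp.add_apply]
      by_cases hw : v = w
      · subst hw
        rw [Finsupp.single_eq_same]
        exact hv
      · rw [Finsupp.single_eq_of_ne (Ne.symm hw), add_zero]
        exact h w
    have h4 : (ν + Finsupp.single v 1).degree = ν.degree + 1 := by
      rw [map_add, Finsupp.degree_single]
    obtain ⟨ν', h5, h6, h7⟩ := ih h3 (by omega) (by omega)
    exact ⟨ν', le_trans (le_add_of_nonneg_right zero_le) h5, h6, h7⟩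

theorem good_anti [Fintype W] {ν μ : Fin n →₀ ℕ} (h : ν ≤ μ) (hμ : Good e μ) : Good e ν := by
  refine ⟨fun v hv => ?_, fun i => ?_⟩
  · have := h v
    rw [hμ.1 v hv] at this
    exact Nat.le_zero.1 this
  · exact (Finset.sum_le_sum fun k _ => h (e (i, k))).trans (hμ.2 i)

/-- A monomial which is not multilinear has a divisor of degree `d` which is not multilinear. -/
theorem not_good [Fintype W] {μ : Fin n →₀ ℕ} {d : ℕ} (hd : 2 ≤ d) (h2 : d ≤ μ.degree)
    (h : ¬ Good e μ) : ∃ ν, ν ≤ μ ∧ ν.degree = d ∧ ¬ Good e ν := by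
  classical
  suffices hs : ∃ ν, ν ≤ μ ∧ ν.degree ≤ 2 ∧ ¬ Good e ν by
    obtain ⟨ν, h3, h4, h5⟩ := hs
    obtain ⟨ν', h6, h7, h8⟩ := ext_div h3 (h4.trans hd) h2
    exact ⟨ν', h7, h8, fun h9 => h5 (good_anti e h6 h9)⟩
  by_cases hA : ∀ v, v ∉ Set.range e → μ v = 0
  · have hB : ∃ i, 2 ≤ ∑ k : W, μ (e (i, k)) := by
      by_contra hno
      push Not at hno
      exact h ⟨hA, fun i => by have := hno i; omega⟩
    obtain ⟨i, hi⟩ := hB
    by_cases hC : ∃ k, 2 ≤ μ (e (i, k))
    · obtain ⟨k, hk⟩ := hC
      refine ⟨Finsupp.single (e (i, k)) 2, ?_, ?_, ?_⟩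
      · rw [Finsupp.single_le_iff]
        exact hk
      · rw [Finsupp.degree_single]
      · intro hg
        have h3 := hg.2 i
        have h4 : (Finsupp.single (e (i, k)) 2 : Fin n →₀ ℕ) (e (i, k)) ≤
            ∑ k' : W, (Finsupp.single (e (i, k)) 2 : Fin n →₀ ℕ) (e (i, k')) :=
          Finset.single_le_sum
            (f := fun k' => (Finsupp.single (e (i, k)) 2 : Fin n →₀ ℕ) (e (i, k')))
            (fun _ _ => Nat.zero_le _) (Finset.mem_univ k)
        rw [Finsupp.single_eq_same] at h4
        omega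
    · push Not at hC
      have hD : ∃ k k', k ≠ k' ∧ μ (e (i, k)) ≠ 0 ∧ μ (e (i, k')) ≠ 0 := by
        by_contra hno
        push Not at hno
        by_cases h0 : ∃ k, μ (e (i, k)) ≠ 0
        · obtain ⟨k, hk⟩ := h0
          have : ∑ k : W, μ (e (i, k)) = μ (e (i, k)) := by
            refine Finset.sum_eq_single k (fun k' _ hk' => ?_) (fun h => absurd (Finset.mem_univ k) h)
            exact hno k k' (Ne.symm hk') hk
          have := hC k
          omega
        · push Not at h0
          have : ∑ k : W, μ (e (i, k)) = 0 := Finset.sum_eq_zero fun k _ => h0 k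
          omega
      obtain ⟨k, k', hkk, hk, hk'⟩ := hD
      have hne : e (i, k) ≠ e (i, k') := by
        intro he
        exact hkk (Prod.mk.inj (e.injective he)).2
      refine ⟨Finsupp.single (e (i, k)) 1 + Finsupp.single (e (i, k')) 1, ?_, ?_, ?_⟩
      · intro w
        rw [Finsupp.add_apply, Finsupp.single_apply, Finsupp.single_apply]
        by_cases h3 : e (i, k) = w
        · rw [if_pos h3, if_neg (fun h4 => hne (h3.trans h4.symm)), ← h3]
          omega
        · rw [if_neg h3]
          by_cases h4 : e (i, k') = w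
          · rw [if_pos h4, ← h4]
            omega
          · rw [if_neg h4]
            omega
      · rw [map_add, Finsupp.degree_single, Finsupp.degree_single]
      · intro hg
        have h3 := hg.2 i
        rw [← Finset.sum_subset (Finset.subset_univ {k, k'}) ?_] at h3
        · rw [Finset.sum_pair hkk, Finsupp.add_apply, Finsupp.add_apply, Finsupp.single_eq_same,
            Finsupp.single_eq_same, Finsupp.single_eq_of_ne hne, 
            Finsupp.single_eq_of_ne (Ne.symm hne)] at h3
          omega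
        · intro k'' _ h4
          rw [Finset.mem_insert, Finset.mem_singleton, not_or] at h4
          rw [Finsupp.add_apply, Finsupp.single_apply, Finsupp.single_apply,
            if_neg (fun h5 => h4.1 (Prod.mk.inj (e.injective h5)).2.symm),
            if_neg (fun h5 => h4.2 (Prod.mk.inj (e.injective h5)).2.symm), add_zero]
  · push Not at hA
    obtain ⟨v, hv, hv0⟩ := hA
    refine ⟨Finsupp.single v 1, ?_, ?_, ?_⟩
    · rw [Finsupp.single_le_iff]
      omega
    · rw [Finsupp.degree_single]
      norm_num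
    · intro hg
      have := hg.1 v hv
      rw [Finsupp.single_eq_same] at this
      exact absurd this (by norm_num)

end Mono

/-! ### Counting -/

section Count

variable {m n : ℕ} {W : Type} [Fintype W] (e : Fin m × W ↪ Fin n)

/-- The exponents of degree `D` are the elements of `Sym`. -/
noncomputable def degEquiv (p D : ℕ) : {m : Fin (p + 1) →₀ ℕ // m.degree = D} ≃ Sym (Fin (p + 1)) D :=
  (Equiv.subtypeEquivRight (fun m => by
      rw [Finsupp.degree_eq_sum, Finsupp.sum_fintype _ _ (fun _ => rfl)]; rfl)).trans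
      (Sym.equivNatSum (Fin (p + 1)) D).symm

theorem card_deg (p D : ℕ) :
    Nat.card {m : Fin (p + 1) →₀ ℕ // m.degree = D} = (D + p).choose p := by
  rw [Nat.card_congr (degEquiv p D), Nat.card_eq_fintype_card, Sym.card_sym_eq_choose,
    Fintype.card_fin]
  have h2 : p + 1 + D - 1 = D + p := by omega
  rw [h2]
  have h3 := Nat.choose_symm (n := D + p) (k := p) (by omega)
  have h4 : D + p - p = D := by omega
  rw [h4] at h3
  exact h3

theorem fin_deg (hn : 1 ≤ n) (D : ℕ) : Finite {m : Fin n →₀ ℕ // m.degree = D} := by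
  obtain ⟨p, rfl⟩ : ∃ p, n = p + 1 := ⟨n - 1, by omega⟩
  exact Finite.of_equiv _ (degEquiv p D).symm

/-- The multilinear exponents of degree `d`. -/
theorem card_good (d : ℕ) [Fintype {μ : Fin n →₀ ℕ // μ.degree = d}]
    [DecidablePred (fun a : {μ : Fin n →₀ ℕ // μ.degree = d} => Good e a.1)] :
    Fintype.card {a : {μ : Fin n →₀ ℕ // μ.degree = d} // Good e a.1} =
      m.choose d * Fintype.card W ^ d := by
  classical
  have hmem : ∀ B : {B : Finset (Fin m) // B ∈ (univ : Finset (Fin m)).powersetCard d},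
      B.1.card = d := fun B => (Finset.mem_powersetCard.1 B.2).2
  let F : (Σ B : {B : Finset (Fin m) // B ∈ (univ : Finset (Fin m)).powersetCard d}, (B.1 → W)) →
      {a : {μ : Fin n →₀ ℕ // μ.degree = d} // Good e a.1} :=
    fun p => ⟨⟨mo e p.1.1 p.2, by rw [mo_degree, hmem p.1]⟩, mo_good e p.1.1 p.2⟩
  have hF : Function.Bijective F := by
    constructor
    · rintro ⟨⟨B, hB⟩, z⟩ ⟨⟨B', hB'⟩, z'⟩ h
      have h1 : mo e B z = mo e B' z' := congrArg (fun x => x.1.1) h
      have h2 := mo_inj e h1
      obtain ⟨h3, h4⟩ := Sigma.mk.inj h2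
      subst h3
      have h5 := eq_of_heq h4
      subst h5
      rfl
    · rintro ⟨⟨μ, hμ⟩, hg⟩
      obtain ⟨B, z, hz⟩ := good_mo e hg
      have hz' : μ = mo e B z := hz
      have hc : B.card = d := by
        rw [← mo_degree e B z, ← hz', hμ]
      refine ⟨⟨⟨B, Finset.mem_powersetCard.2 ⟨Finset.subset_univ _, hc⟩⟩, z⟩, ?_⟩
      apply Subtype.ext
      apply Subtype.ext
      exact hz'.symm
  rw [← Fintype.card_of_bijective hF, Fintype.card_sigma]
  have h1 : ∀ B : {B : Finset (Fin m) // B ∈ (univ : Finset (Fin m)).powersetCard d},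
      Fintype.card (B.1 → W) = Fintype.card W ^ d := by
    intro B
    rw [Fintype.card_fun, Fintype.card_coe, hmem B]
  rw [Finset.sum_congr rfl (fun B _ => h1 B), Finset.sum_const, smul_eq_mul, Finset.card_univ,
    Fintype.card_coe, Finset.card_powersetCard, Finset.card_univ, Fintype.card_fin]

end Count

/-! ### The span -/

/-- Enough: all monomials of degree `2 d`. -/
theorem onto_of {n d N : ℕ} (ι : Type) [Fintype ι] (hN : Fintype.card ι = N)
    (G : ι → MvPolynomial (Fin n) ℂ) (hG : ∀ i, (G i).IsHomogeneous d)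
    (H : ∀ μ : Fin n →₀ ℕ, μ.degree = 2 * d → ∃ h : ι → MvPolynomial (Fin n) ℂ,
      (∀ i, (h i).IsHomogeneous d) ∧ monomial μ (1 : ℂ) = ∑ i, G i * h i) : Onto n 2 d N := by
  classical
  have eq : ι ≃ Fin N := (Fintype.equivFinOfCardEq hN)
  refine ⟨fun i => G (eq.symm i), fun i => hG _, fun F hF => ?_⟩
  choose! h h1 h2 using H
  have hsup : ∀ μ ∈ F.support, μ.degree = 2 * d := by
    intro μ hμ
    have := hF (MvPolynomial.mem_support_iff.1 hμ)
    rw [← this, Finsupp.degree_eq_weight_one]
    rfl
  refine ⟨fun i => ∑ μ ∈ F.support, C (coeff μ F) * h μ (eq.symm i), fun i => ?_, ?_⟩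
  · refine IsHomogeneous.sum _ _ _ fun μ hμ => ?_
    have := (isHomogeneous_C (Fin n) (coeff μ F)).mul (h1 μ (hsup μ hμ) (eq.symm i))
    rwa [zero_add] at this
  · rw [eq.symm.sum_comp (fun i => G i ^ (2 - 1) * ∑ μ ∈ F.support, C (coeff μ F) * h μ i)]
    conv_lhs => rw [← MvPolynomial.support_sum_monomial_coeff F]
    have h3 : ∀ i, G i ^ (2 - 1) * ∑ μ ∈ F.support, C (coeff μ F) * h μ i =
        ∑ μ ∈ F.support, C (coeff μ F) * (G i * h μ i) := by
      intro i
      rw [show (2 - 1 : ℕ) = 1 from rfl, pow_one, Finset.mul_sum]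
      exact Finset.sum_congr rfl fun μ _ => by ring
    rw [Finset.sum_congr rfl (fun i _ => h3 i), Finset.sum_comm]
    refine Finset.sum_congr rfl fun μ hμ => ?_
    rw [← Finset.mul_sum, ← h2 μ (hsup μ hμ), MvPolynomial.C_mul_monomial, mul_one]

/-! ### The product of two sums -/

section Prod

variable {m n : ℕ} {K : Type} [Fintype K] [DecidableEq K]

/-- The exchange of coordinates outside `B`. -/
noncomputable def sw (B : Finset (Fin m)) :
    ((Fin m → K) × (Fin m → K)) ≃ ((Fin m → K) × (Fin m → K)) :=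
  Function.Involutive.toPerm (fun p => (B.piecewise p.1 p.2, B.piecewise p.2 p.1)) (by
    rintro ⟨x, z⟩
    refine Prod.ext ?_ ?_
    · funext i
      by_cases hi : i ∈ B
      · simp [hi]
      · simp [hi]
    · funext i
      by_cases hi : i ∈ B
      · simp [hi]
      · simp [hi])

theorem prod_sum {R : Type} [CommRing R] (B C : Finset (Fin m)) (hBC : Disjoint B C)
    (a b : (Fin m → K) → R) (ha : DependsOn a (B : Set (Fin m)))
    (hb : DependsOn b (C : Set (Fin m))) :
    (∑ x, a x) * (∑ z, b z) = (Fintype.card (Fin m → K) : R) * ∑ y, a y * b y := by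
  rw [Finset.sum_mul_sum, ← Fintype.sum_prod_type (f := fun p => a p.1 * b p.2)]
  have h1 : ∀ p : (Fin m → K) × (Fin m → K),
      a p.1 * b p.2 = (fun q : (Fin m → K) × (Fin m → K) => a q.1 * b q.1) (sw B p) := by
    intro p
    have e1 : (sw B p).1 = B.piecewise p.1 p.2 := rfl
    show a p.1 * b p.2 = a (sw B p).1 * b (sw B p).1
    rw [e1]
    congr 1
    · refine ha fun i hi => ?_
      rw [Finset.piecewise_eq_of_mem _ _ _ hi]
    · refine hb fun i hi => ?_
      rw [Finset.piecewise_eq_of_notMem _ _ _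
        (fun h => Finset.disjoint_left.1 hBC h hi)]
  rw [Finset.sum_congr rfl (fun p _ => h1 p)]
  refine (Equiv.sum_comp (sw B) (fun q : (Fin m → K) × (Fin m → K) => a q.1 * b q.1)).trans ?_
  rw [Fintype.sum_prod_type, Finset.sum_comm]
  show (∑ _y : Fin m → K, ∑ x : Fin m → K, a x * b x) = _
  rw [Finset.sum_const, Finset.card_univ, nsmul_eq_mul]

end Prod

section Key

variable {m n r : ℕ} {K : Type} [Fintype K] [DecidableEq K] (e : Fin m × (K × Fin r) ↪ Fin n)

/-- The monomial of `B`, `x`. -/
noncomputable def PB (ρ : Fin m → Fin r) (B : Finset (Fin m)) (x : Fin m → K) :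
    MvPolynomial (Fin n) ℂ := ∏ i ∈ B, X (e (i, (x i, ρ i)))

theorem PB_hom (ρ : Fin m → Fin r) (B : Finset (Fin m)) (x : Fin m → K) :
    (PB e ρ B x).IsHomogeneous B.card := by
  have := IsHomogeneous.prod B (fun i => (X (e (i, (x i, ρ i))) : MvPolynomial (Fin n) ℂ))
    (fun _ => 1) (fun i _ => isHomogeneous_X _ _)
  rw [Finset.sum_const, smul_eq_mul, mul_one] at this
  exact this

theorem PB_dep (ρ : Fin m → Fin r) (B : Finset (Fin m)) :
    DependsOn (PB e ρ B) (B : Set (Fin m)) := by
  intro x y h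
  unfold PB
  exact Finset.prod_congr rfl fun i hi => by rw [h i hi]

theorem key_id (ρ : Fin m → Fin r) (I : Finset (Fin m)) (d : ℕ) (y0 : Fin m → K)
    (s : Finset (Fin m) → ℕ) (g h : ∀ B : Finset (Fin m), Fin (s B) → (Fin m → K) → ℂ)
    (hg : ∀ B j, DependsOn (g B j) (B : Set (Fin m)))
    (hh : ∀ B j, DependsOn (h B j) ((I \ B : Finset (Fin m)) : Set (Fin m)))
    (hs : ∀ y : Fin m → K, (if ∀ i ∈ I, y i = y0 i then (1 : ℂ) else 0) =
      ∑ B ∈ I.powersetCard d, ∑ j, g B j y * h B j y) :
    ∑ B ∈ I.powersetCard d, ∑ j, (∑ x, C (g B j x) * PB e ρ B x) *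
        (∑ z, C (h B j z) * PB e ρ (I \ B) z) =
      C ((Fintype.card (Fin m → K) : ℂ) *
        ((univ.filter (fun y : Fin m → K => ∀ i ∈ I, y i = y0 i)).card : ℂ)) * PB e ρ I y0 := by
  have h1 : ∀ B ∈ I.powersetCard d, ∀ j, (∑ x, C (g B j x) * PB e ρ B x) *
        (∑ z, C (h B j z) * PB e ρ (I \ B) z) =
      C (Fintype.card (Fin m → K) : ℂ) * ∑ y, C (g B j y * h B j y) * PB e ρ I y := by
    intro B hB j
    have hBI : B ⊆ I := (Finset.mem_powersetCard.1 hB).1
    rw [prod_sum B (I \ B) Finset.disjoint_sdiff]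
    · rw [map_natCast]
      congr 1
      refine Finset.sum_congr rfl fun y _ => ?_
      have h2 : PB e ρ I y = PB e ρ (I \ B) y * PB e ρ B y := by
        unfold PB
        rw [Finset.prod_sdiff hBI]
      rw [h2, C_mul]
      ring
    · intro x y hxy
      show C (g B j x) * PB e ρ B x = C (g B j y) * PB e ρ B y
      rw [hg B j hxy, PB_dep e ρ B hxy]
    · intro x y hxy
      show C (h B j x) * PB e ρ (I \ B) x = C (h B j y) * PB e ρ (I \ B) y
      rw [hh B j hxy, PB_dep e ρ (I \ B) hxy]
  rw [Finset.sum_congr rfl (fun B hB => Finset.sum_congr rfl (fun j _ => h1 B hB j))]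
  have h3 : ∑ B ∈ I.powersetCard d, ∑ j : Fin (s B),
      (C (Fintype.card (Fin m → K) : ℂ) * ∑ y, C (g B j y * h B j y) * PB e ρ I y) =
      C (Fintype.card (Fin m → K) : ℂ) * ∑ y, C (∑ B ∈ I.powersetCard d, ∑ j,
        g B j y * h B j y) * PB e ρ I y := by
    simp only [← Finset.mul_sum]
    congr 1
    rw [Finset.sum_congr rfl (fun B _ => Finset.sum_comm), Finset.sum_comm]
    refine Finset.sum_congr rfl fun y _ => ?_
    rw [map_sum, Finset.sum_mul]
    refine Finset.sum_congr rfl fun B _ => ?_
    rw [map_sum, Finset.sum_mul]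
  rw [h3, C_mul, mul_assoc]
  congr 1
  have h4 : ∀ y : Fin m → K, C (∑ B ∈ I.powersetCard d, ∑ j, g B j y * h B j y) * PB e ρ I y =
      if ∀ i ∈ I, y i = y0 i then PB e ρ I y0 else 0 := by
    intro y
    rw [← hs y]
    by_cases hy : ∀ i ∈ I, y i = y0 i
    · rw [if_pos hy, if_pos hy, C_1, one_mul]
      exact PB_dep e ρ I hy
    · rw [if_neg hy, if_neg hy, C_0, zero_mul]
  rw [Finset.sum_congr rfl (fun y _ => h4 y), ← Finset.sum_filter, Finset.sum_const,
    nsmul_eq_mul, map_natCast]

end Key

end H14ASA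

open H14ASA in
/-- ASA. -/
theorem t_asa : ASAStmt := by
  intro d m r n K _ s g hd hK hn hmn hg H
  classical
  have hcard : Fintype.card (Fin m × (K × Fin r)) ≤ Fintype.card (Fin n) := by
    rw [Fintype.card_prod, Fintype.card_prod, Fintype.card_fin, Fintype.card_fin,
      Fintype.card_fin]
    exact hmn
  obtain ⟨e⟩ := Function.Embedding.nonempty_of_card_le hcard
  haveI := fin_deg hn d
  letI : Fintype {μ : Fin n →₀ ℕ // μ.degree = d} := Fintype.ofFinite _
  refine ⟨Fintype.card {a : {μ : Fin n →₀ ℕ // μ.degree = d} // ¬ Good e a.1}, ?_, ?_⟩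
  · have h1 : Fintype.card {a : {μ : Fin n →₀ ℕ // μ.degree = d} // Good e a.1} +
        Fintype.card {a : {μ : Fin n →₀ ℕ // μ.degree = d} // ¬ Good e a.1} =
        Fintype.card {μ : Fin n →₀ ℕ // μ.degree = d} := by
      rw [← Fintype.card_sum]
      exact Fintype.card_congr (Equiv.sumCompl _)
    have h2 := card_good e d
    rw [Fintype.card_prod, Fintype.card_fin] at h2
    have h3 : Fintype.card {μ : Fin n →₀ ℕ // μ.degree = d} = mon n d := by
      rw [← Nat.card_eq_fintype_card]
      obtain ⟨p, rfl⟩ : ∃ p, n = p + 1 := ⟨n - 1, by omega⟩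
      exact card_deg p d
    rw [← h3, ← h1, ← h2, Nat.add_comm]
  · let ι : Type := {a : {μ : Fin n →₀ ℕ // μ.degree = d} // ¬ Good e a.1} ⊕
      (Σ B : {B : Finset (Fin m) // B ∈ (univ : Finset (Fin m)).powersetCard d},
        Fin (s B.1) × (B.1 → Fin r))
    have hmem : ∀ B : {B : Finset (Fin m) // B ∈ (univ : Finset (Fin m)).powersetCard d},
        B.1.card = d := fun B => (Finset.mem_powersetCard.1 B.2).2
    let G : ι → MvPolynomial (Fin n) ℂ := Sum.elim (fun a => monomial a.1.1 (1 : ℂ))
      (fun p => ∑ x : Fin m → K, C (g p.1.1 p.2.1 x) *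
        ∏ i : p.1.1, X (e (i.1, (x i.1, p.2.2 i))))
    have hG : ∀ i, (G i).IsHomogeneous d := by
      rintro (a | ⟨B, j, ρ⟩)
      · exact isHomogeneous_monomial _ a.1.2
      · refine IsHomogeneous.sum _ _ _ fun x _ => ?_
        have h1 := IsHomogeneous.prod (univ : Finset B.1)
          (fun i => (X (e (i.1, (x i.1, ρ i))) : MvPolynomial (Fin n) ℂ))
          (fun _ => 1) (fun i _ => isHomogeneous_X _ _)
        rw [Finset.sum_const, smul_eq_mul, mul_one, Finset.card_univ, Fintype.card_coe,
          hmem B] at h1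
        have h2 := (isHomogeneous_C (Fin n) (g B.1 j x)).mul h1
        rwa [zero_add] at h2
    refine onto_of ι ?_ G hG ?_
    · rw [Fintype.card_sum, Fintype.card_sigma]
      congr 1
      have h1 : ∀ B : {B : Finset (Fin m) // B ∈ (univ : Finset (Fin m)).powersetCard d},
          Fintype.card (Fin (s B.1) × (B.1 → Fin r)) = s B.1 * r ^ d := by
        intro B
        rw [Fintype.card_prod, Fintype.card_fin, Fintype.card_fun, Fintype.card_coe,
          Fintype.card_fin, hmem B]
      rw [Finset.sum_congr rfl (fun B _ => h1 B)]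
      exact Finset.sum_coe_sort _ (fun B => s B * r ^ d)
    · intro μ hμ
      by_cases hgood : Good e μ
      · obtain ⟨I, w, hw⟩ := good_mo e hgood
        have hI : I.card = 2 * d := by rw [← mo_degree e I w, ← hw, hμ]
        obtain ⟨i0, hi0⟩ : I.Nonempty := by
          rw [← Finset.card_pos, hI]
          omega
        let y0 : Fin m → K := fun i => if h : i ∈ I then (w ⟨i, h⟩).1 else (w ⟨i0, hi0⟩).1
        let ρ : Fin m → Fin r := fun i => if h : i ∈ I then (w ⟨i, h⟩).2 else (w ⟨i0, hi0⟩).2
        have hmono : monomial μ (1 : ℂ) = PB e ρ I y0 := by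
          rw [hw, mo, monomial_sum_one, PB,
            ← Finset.prod_coe_sort I (fun i => (X (e (i, (y0 i, ρ i))) : MvPolynomial (Fin n) ℂ))]
          refine Finset.prod_congr rfl fun i _ => ?_
          have e1 : y0 i.1 = (w i).1 := dif_pos i.2
          have e2 : ρ i.1 = (w i).2 := dif_pos i.2
          rw [e1, e2]
          rfl
        obtain ⟨h, hh1, hh2⟩ := H I hI (fun y => if ∀ i ∈ I, y i = y0 i then (1 : ℂ) else 0) (by
          intro x y hxy
          refine if_congr ?_ rfl rfl
          constructor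
          · intro h i hi
            rw [← hxy i hi]
            exact h i hi
          · intro h i hi
            rw [hxy i hi]
            exact h i hi)
        have hkey := key_id e ρ I d y0 s g h hg hh1 hh2
        set cc : ℂ := (Fintype.card (Fin m → K) : ℂ) *
          ((univ.filter (fun y : Fin m → K => ∀ i ∈ I, y i = y0 i)).card : ℂ) with hcc
        have hcc0 : cc ≠ 0 := by
          rw [hcc]
          refine mul_ne_zero ?_ ?_
          · rw [Nat.cast_ne_zero]
            haveI : Nonempty (Fin m → K) := ⟨y0⟩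
            exact Fintype.card_ne_zero
          · rw [Nat.cast_ne_zero]
            refine Finset.card_ne_zero_of_mem (a := y0) ?_
            exact Finset.mem_filter.2 ⟨Finset.mem_univ _, fun _ _ => rfl⟩
        refine ⟨Sum.elim (fun _ => 0) (fun p => if p.1.1 ⊆ I ∧ p.2.2 = (fun i => ρ i.1) then
          C (cc⁻¹) * ∑ z, C (h p.1.1 p.2.1 z) * PB e ρ (I \ p.1.1) z else 0), ?_, ?_⟩
        · rintro (a | ⟨B, j, ρ'⟩)
          · exact isHomogeneous_zero _ _ _
          · show MvPolynomial.IsHomogeneous (if B.1 ⊆ I ∧ ρ' = (fun i => ρ i.1) then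
              C (cc⁻¹) * ∑ z, C (h B.1 j z) * PB e ρ (I \ B.1) z else 0) d
            by_cases hB : B.1 ⊆ I ∧ ρ' = (fun i => ρ i.1)
            · rw [if_pos hB]
              have h1 : (∑ z, C (h B.1 j z) * PB e ρ (I \ B.1) z).IsHomogeneous d := by
                refine IsHomogeneous.sum _ _ _ fun z _ => ?_
                have h2 := (isHomogeneous_C (Fin n) (h B.1 j z)).mul (PB_hom e ρ (I \ B.1) z)
                rw [Finset.card_sdiff_of_subset hB.1, hI, hmem B, zero_add] at h2
                rwa [show 2 * d - d = d by omega] at h2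
              have h2 := (isHomogeneous_C (Fin n) cc⁻¹).mul h1
              rwa [zero_add] at h2
            · rw [if_neg hB]
              exact isHomogeneous_zero _ _ _
        · rw [hmono, Fintype.sum_sum_type]
          simp only [Sum.elim_inl, Sum.elim_inr, mul_zero, Finset.sum_const_zero, zero_add]
          rw [Fintype.sum_sigma]
          have h1 : ∀ B : {B : Finset (Fin m) // B ∈ (univ : Finset (Fin m)).powersetCard d},
              ∑ q : Fin (s B.1) × (B.1 → Fin r), G (Sum.inr ⟨B, q⟩) *
                (if B.1 ⊆ I ∧ q.2 = (fun i => ρ i.1) then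
                C (cc⁻¹) * ∑ z, C (h B.1 q.1 z) * PB e ρ (I \ B.1) z else 0) =
              if B.1 ⊆ I then C (cc⁻¹) * ∑ j, (∑ x, C (g B.1 j x) * PB e ρ B.1 x) *
                (∑ z, C (h B.1 j z) * PB e ρ (I \ B.1) z) else 0 := by
            intro B
            by_cases hB : B.1 ⊆ I
            · rw [if_pos hB, Fintype.sum_prod_type, Finset.mul_sum]
              refine Finset.sum_congr rfl fun j _ => ?_
              rw [Finset.sum_eq_single (fun i => ρ i.1)]
              · rw [if_pos ⟨hB, rfl⟩]
                have h2 : G (Sum.inr ⟨B, (j, fun i => ρ i.1)⟩) =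
                    ∑ x, C (g B.1 j x) * PB e ρ B.1 x := by
                  show ∑ x : Fin m → K, C (g B.1 j x) *
                    ∏ i : B.1, X (e (i.1, (x i.1, ρ i.1))) = _
                  refine Finset.sum_congr rfl fun x _ => ?_
                  rw [PB, Finset.prod_coe_sort B.1
                    (fun i => (X (e (i, (x i, ρ i))) : MvPolynomial (Fin n) ℂ))]
                rw [h2]
                ring
              · intro ρ' _ hρ'
                rw [if_neg (fun h3 => hρ' h3.2), mul_zero]
              · intro h3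
                exact absurd (Finset.mem_univ _) h3
            · rw [if_neg hB]
              refine Finset.sum_eq_zero fun q _ => ?_
              rw [if_neg (fun h3 => hB h3.1), mul_zero]
          rw [Finset.sum_congr rfl (fun B _ => h1 B),
            Finset.sum_coe_sort ((univ : Finset (Fin m)).powersetCard d) (fun B => if B ⊆ I then
              C (cc⁻¹) * ∑ j, (∑ x, C (g B j x) * PB e ρ B x) *
                (∑ z, C (h B j z) * PB e ρ (I \ B) z) else 0), ← Finset.sum_filter]
          have h2 : ((univ : Finset (Fin m)).powersetCard d).filter (fun B => B ⊆ I) =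
              I.powersetCard d := by
            ext B
            rw [Finset.mem_filter, Finset.mem_powersetCard, Finset.mem_powersetCard]
            constructor
            · rintro ⟨⟨-, h3⟩, h4⟩
              exact ⟨h4, h3⟩
            · rintro ⟨h3, h4⟩
              exact ⟨⟨Finset.subset_univ _, h4⟩, h3⟩
          rw [h2, ← Finset.mul_sum, hkey, ← mul_assoc, ← C_mul, inv_mul_cancel₀ hcc0, C_1, one_mul]
      · obtain ⟨ν, hν1, hν2, hν3⟩ := not_good e hd (by omega : d ≤ μ.degree) hgood
        refine ⟨Function.update 0 (Sum.inl ⟨⟨ν, hν2⟩, hν3⟩) (monomial (μ - ν) (1 : ℂ)), ?_, ?_⟩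
        · intro i
          by_cases hi : i = Sum.inl ⟨⟨ν, hν2⟩, hν3⟩
          · subst hi
            rw [Function.update_self]
            refine isHomogeneous_monomial _ ?_
            have h1 : ν + (μ - ν) = μ := add_tsub_cancel_of_le hν1
            have h2 : (ν + (μ - ν)).degree = μ.degree := by rw [h1]
            rw [map_add] at h2
            omega
          · rw [Function.update_of_ne hi]
            exact isHomogeneous_zero _ _ _
        · rw [Finset.sum_eq_single (Sum.inl ⟨⟨ν, hν2⟩, hν3⟩ : ι)]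
          · rw [Function.update_self]
            show _ = monomial ν (1 : ℂ) * monomial (μ - ν) (1 : ℂ)
            rw [monomial_mul, one_mul, add_tsub_cancel_of_le hν1]
          · intro i _ hi
            rw [Function.update_of_ne hi, Pi.zero_apply, mul_zero]
          · intro h1
            exact absurd (Finset.mem_univ _) h1

end Pool.SQA
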